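import Pool.Agent.W997.TS.Defs
import Pool.Agent.H554R2.Thrifty.Defs

/-!
# Directed connectivity and branching programs which read few variables: definitions
-/

set_option autoImplicit false

namespace Pool.Agent.W994.ST

open Finset
open Pool.Agent.W997.TS (DBP)
open Pool.Agent.H554R2.Thrifty (BP)

/-- A directed graph with the vertex set `Fin k` in which every vertex `v` has the two (not
necessarily different) out-neighbours `x (v, false)` and `x (v, true)`. -/
abbrev Input (k : ℕ) : Type := Fin k × Bool → Fin k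

/-- There is a directed path (possibly of length `0`) from `a` to `b`. -/
def Reach {k : ℕ} (x : Input k) (a b : Fin k) : Prop :=
  Relation.ReflTransGen (fun u v => ∃ c : Bool, x (u, c) = v) a b

/-- The number of vertices which can be reached from `s` (`s` included). -/
noncomputable def nReach {k : ℕ} (x : Input k) (s : Fin k) : ℕ := {v | Reach x s v}.ncard

/-! ### Traces -/

section trace

variable {𝒱 : Type}

/-- The answer of the query of time `t` is `b`. -/
def ann (w : 𝒱 × Bool → 𝒱) (q : ℕ → Option (𝒱 × Bool)) (t : ℕ) (b : 𝒱) : Prop :=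
  ∃ v, q t = some v ∧ w v = b

/-- The query of time `t` is at the vertex `b`. -/
def touch (q : ℕ → Option (𝒱 × Bool)) (t : ℕ) (b : 𝒱) : Prop := ∃ c, q t = some (b, c)

/-- At time `t` the vertex `b` is held: it is queried at some later time `p ≥ t`, and it is not
the answer of a query of a time in `[t, p)`. -/
def held (w : 𝒱 × Bool → 𝒱) (q : ℕ → Option (𝒱 × Bool)) (t : ℕ) (b : 𝒱) : Prop :=
  ∃ p, t ≤ p ∧ touch q p b ∧ ∀ s, t ≤ s → s < p → ¬ ann w q s b

end trace

/-! ### Machines -/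

section machine

variable {𝒱 St : Type}

/-- One step of the machine with query function `qu` and transition function `nx`. -/
def stp (qu : St → Option (𝒱 × Bool)) (nx : St → 𝒱 → St) (x : 𝒱 × Bool → 𝒱) (σ : St) : St :=
  match qu σ with
  | none => σ
  | some v => nx σ (x v)

/-- The state after `p` steps. -/
def run (qu : St → Option (𝒱 × Bool)) (nx : St → 𝒱 → St) (x : 𝒱 × Bool → 𝒱) (σ : St) (p : ℕ) :
    St := (stp qu nx x)^[p] σ

/-- The query of time `p`. -/
def trc (qu : St → Option (𝒱 × Bool)) (nx : St → 𝒱 → St) (x : 𝒱 × Bool → 𝒱) (σ : St) (p : ℕ) :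
    Option (𝒱 × Bool) := qu (run qu nx x σ p)

end machine

/-! ### The gadgets -/

/-- The nodes of the gadget of level `d` with `r + 1` stages. -/
def Nd (r : ℕ) : ℕ → Type
  | 0 => Unit
  | d + 1 => (Fin (r + 1) × Bool) × Option (Bool × Nd r d)

/-- The hidden bits of the gadget of level `d`. -/
def Hb (r : ℕ) : ℕ → Type
  | 0 => Unit
  | d + 1 => (Fin (r + 1) → Bool) × (Fin (r + 1) × Bool × Bool → Hb r d)

noncomputable instance instFintypeNd (r : ℕ) : (d : ℕ) → Fintype (Nd r d)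
  | 0 => inferInstanceAs (Fintype Unit)
  | d + 1 =>
    haveI := instFintypeNd r d
    inferInstanceAs (Fintype ((Fin (r + 1) × Bool) × Option (Bool × Nd r d)))

instance instDecEqNd (r : ℕ) : (d : ℕ) → DecidableEq (Nd r d)
  | 0 => inferInstanceAs (DecidableEq Unit)
  | d + 1 =>
    haveI := instDecEqNd r d
    inferInstanceAs (DecidableEq ((Fin (r + 1) × Bool) × Option (Bool × Nd r d)))

noncomputable instance instFintypeHb (r : ℕ) : (d : ℕ) → Fintype (Hb r d)
  | 0 => inferInstanceAs (Fintype Unit)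
  | d + 1 =>
    haveI := instFintypeHb r d
    inferInstanceAs (Fintype ((Fin (r + 1) → Bool) × (Fin (r + 1) × Bool × Bool → Hb r d)))

instance instDecEqHb (r : ℕ) : (d : ℕ) → DecidableEq (Hb r d)
  | 0 => inferInstanceAs (DecidableEq Unit)
  | d + 1 =>
    haveI := instDecEqHb r d
    inferInstanceAs (DecidableEq ((Fin (r + 1) → Bool) × (Fin (r + 1) × Bool × Bool → Hb r d)))

instance instNonemptyHb (r : ℕ) : (d : ℕ) → Nonempty (Hb r d)
  | 0 => inferInstanceAs (Nonempty Unit)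
  | d + 1 =>
    haveI := instNonemptyHb r d
    inferInstanceAs (Nonempty ((Fin (r + 1) → Bool) × (Fin (r + 1) × Bool × Bool → Hb r d)))

/-- The number of nodes. -/
def nd (r : ℕ) : ℕ → ℕ
  | 0 => 1
  | d + 1 => 2 * (r + 1) * (2 * nd r d + 1)

/-- The number of sub-gadgets of positive level. -/
def nn (r : ℕ) : ℕ → ℕ
  | 0 => 0
  | d + 1 => 4 * (r + 1) * nn r d + 1

/-- The live side of stage `i`. -/
def sd {r : ℕ} (ω : Fin (r + 1) → Bool) (i : Fin (r + 1)) : Bool :=
  if i.val = 0 then false else ω ⟨i.val - 1, by omega⟩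

/-- Where the exit of the sub-gadget `(i, e, c)` leads to: a path node, or the exit (`inr true`),
or nothing (`inr false`). -/
def nx {r : ℕ} (ω : Fin (r + 1) → Bool) (i : Fin (r + 1)) (e c : Bool) :
    (Fin (r + 1) × Bool) ⊕ Bool :=
  if h : i.val + 1 < r + 1 then Sum.inl (⟨i.val + 1, h⟩, if e = sd ω i then c else !(ω i))
  else Sum.inr ((if e = sd ω i then c else !(ω i)) == ω i)

/-- The entry of the gadget. -/
def entry (r : ℕ) : (d : ℕ) → Nd r d
  | 0 => ()
  | _ + 1 => ((0, false), none)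

/-- The two pointers of a node: another node, or the exit (`inr true`), or nothing
(`inr false`). -/
def sc (r : ℕ) : (d : ℕ) → Hb r d → Nd r d → Bool → Nd r d ⊕ Bool
  | 0, _, _, _ => Sum.inr true
  | d + 1, _, (p, none), c => Sum.inl (p, some (c, entry r d))
  | d + 1, h, ((i, e), some (c', u)), c =>
    match sc r d (h.2 (i, e, c')) u c with
    | Sum.inl u' => Sum.inl ((i, e), some (c', u'))
    | Sum.inr false => Sum.inr false
    | Sum.inr true =>
      match nx h.1 i e c' with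
      | Sum.inl p => Sum.inl (p, none)
      | Sum.inr b => Sum.inr b

/-- The node of the gadget of level `d + 1` which belongs to the node `u` of the sub-gadget
`(i, e, c)`. -/
def sb {r d : ℕ} (i : Fin (r + 1)) (e c : Bool) (u : Nd r d) : Nd r (d + 1) :=
  ((i, e), some (c, u))

/-- The path node `(i, e)`. -/
def pn {r : ℕ} (d : ℕ) (i : Fin (r + 1)) (e : Bool) : Nd r (d + 1) := ((i, e), none)

/-- The target of a pointer, for an embedding `ι` of the nodes and the targets `ε` of the exit and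
`δ` of the undefined pointers. -/
def tg {𝒱 N : Type} (ι : N → 𝒱) (ε δ : 𝒱) : N ⊕ Bool → 𝒱
  | Sum.inl u => ι u
  | Sum.inr true => ε
  | Sum.inr false => δ

/-- A family of worlds in which the gadget of level `d` is embedded by `ι`. -/
structure Fam {𝒱 : Type} {r d : ℕ} (W : Hb r d → 𝒱 × Bool → 𝒱) (ι : Nd r d → 𝒱) (ε δ : 𝒱) :
    Prop where
  inj : Function.Injective ι
  ans : ∀ h u c, W h (ι u, c) = tg ι ε δ (sc r d h u c)
  off : ∀ h h' v, (∀ u, v.1 ≠ ι u) → W h v = W h' v
  out : ∀ h v u, (∀ u', v.1 ≠ ι u') → W h v = ι u → u = entry r d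
  he : ∀ u, ι u ≠ ε
  hd : ∀ u, ι u ≠ δ

/-- The query of time `t` is at the exit of the embedded gadget. -/
def exitAt {𝒱 : Type} {r d : ℕ} (ι : Nd r d → 𝒱) (h : Hb r d) (q : ℕ → Option (𝒱 × Bool))
    (t : ℕ) : Prop := ∃ u c, q t = some (ι u, c) ∧ sc r d h u c = Sum.inr true

/-- The exit of the embedded gadget of level `d` is read although, from a time at which no node
is held, never more than `d` nodes have been held. -/
def Viol {𝒱 : Type} {r d : ℕ} (w : 𝒱 × Bool → 𝒱) (ι : Nd r d → 𝒱) (h : Hb r d)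
    (q : ℕ → Option (𝒱 × Bool)) : Prop :=
  ∃ t1 t2, t1 ≤ t2 ∧ (∀ u, ¬ held w q t1 (ι u)) ∧
    (∀ t, t1 ≤ t → t ≤ t2 → ∀ s : Finset (Nd r d), (∀ u ∈ s, held w q t (ι u)) → s.card ≤ d) ∧
    exitAt ι h q t2

/-- The world: the graph belonging to the hidden bits `h` and the names `a`; the exit leads to `t`
if `z = true`. -/
noncomputable def wld {k κ r D : ℕ} (nm : Nd r D × Fin κ → Fin k) (s t dd : Fin k) (z : Bool)
    (h : Hb r D) (a : Nd r D → Fin κ) (v : Fin k × Bool) : Fin k :=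
  open Classical in
  if v.1 = s then nm (entry r D, a (entry r D))
  else if H : ∃ u, nm (u, a u) = v.1 then
    tg (fun u => nm (u, a u)) (if z then t else dd) dd (sc r D h H.choose v.2)
  else dd

/-! ### The parts -/

/-- (NBP) The nondeterministic program. -/
def NBPProp : Prop := ∀ (k : ℕ) (s t : Fin k), ∃ P : BP (Fin k × Bool) k, P.size = 2 * k + 3 ∧
  ∀ x : Input k, (Reach x s t ↔ ∃ l, P.IsComp x l true) ∧
    (Reach x s t → ∃ l, P.IsComp x l true ∧ l.length ≤ nReach x s)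

open Classical in
/-- (SAV) The deterministic program of Savitch's type, which reads only variables of vertices that
can be reached from `s`. -/
def SavProp : Prop := ∀ (k : ℕ) (s t : Fin k), ∃ P : DBP (Fin k × Bool) k,
  P.size ≤ (8 * k ^ 2) ^ (Nat.log 2 k + 2) ∧
  ∀ x : Input k, ∃ τ m, m ≤ 2 * nReach x s ∧ P.Run x τ m (decide (Reach x s t))

/-- The vertex `b` is queried at time `p` for the first time, and it has not been an answer
before. -/
def FT {𝒱 : Type} (w : 𝒱 × Bool → 𝒱) (q : ℕ → Option (𝒱 × Bool)) (b : 𝒱) (p : ℕ) : Prop :=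
  touch q p b ∧ ∀ s, s < p → ¬ touch q s b ∧ ¬ ann w q s b

open Classical in
/-- (NAMES) Few namings allow `m` unannounced first queries of small rank. -/
def NamesProp : Prop := ∀ (𝒱 St N : Type) [Fintype N] (κ : ℕ)
  (qu : St → Option (𝒱 × Bool)) (nxt : St → 𝒱 → St) (nm : N × Fin κ → 𝒱)
  (_ : Function.Injective nm) (X : (N → Fin κ) → 𝒱 × Bool → 𝒱)
  (_ : ∀ a a' v, (∀ z, a z ≠ a' z → v.1 ≠ nm (z, a z) ∧ v.1 ≠ nm (z, a' z)) →
    (∀ z, a z ≠ a' z → X a v ≠ nm (z, a z)) → X a v = X a' v)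
  (σ : St) (m T : ℕ),
  (univ.filter fun a : N → Fin κ => ∃ z : Fin m → N, Function.Injective z ∧ ∀ j, ∃ p,
      FT (X a) (trc qu nxt (X a) σ) (nm (z j, a (z j))) p ∧
      ((range p).image (trc qu nxt (X a) σ)).card < T).card * κ ^ m ≤
    (Fintype.card N * T) ^ m * κ ^ Fintype.card N

/-- (INST) The properties of the worlds. -/
def InstProp : Prop := ∀ (k κ r D : ℕ) (nm : Nd r D × Fin κ → Fin k) (s t dd : Fin k),
  Function.Injective nm → (∀ v, nm v ≠ s) → (∀ v, nm v ≠ t) → (∀ v, nm v ≠ dd) → s ≠ t → s ≠ dd →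
  t ≠ dd →
  (∀ z h a, nReach (wld nm s t dd z h a) s ≤ nd r D + 3) ∧
  (∀ h a, Reach (wld nm s t dd true h a) s t) ∧
  (∀ h a, ¬ Reach (wld nm s t dd false h a) s t) ∧
  (∀ h a v, (∀ u c, v = (nm (u, a u), c) → sc r D h u c ≠ Sum.inr true) →
    wld nm s t dd true h a v = wld nm s t dd false h a v) ∧
  (∀ z a, Fam (fun h => wld nm s t dd z h a) (fun u => nm (u, a u)) (if z then t else dd) dd) ∧
  (∀ z h a a' v, (∀ u, a u ≠ a' u → v.1 ≠ nm (u, a u) ∧ v.1 ≠ nm (u, a' u)) →
    (∀ u, a u ≠ a' u → wld nm s t dd z h a v ≠ nm (u, a u)) →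
    wld nm s t dd z h a v = wld nm s t dd z h a' v)

/-- (ASYM) The choice of the parameters. -/
def AsymProp : Prop := ∀ θ δ : ℝ, θ < 1 → 0 < δ → ∃ c : ℝ, 0 < c ∧ ∃ k₀ : ℕ, ∀ k : ℕ, k₀ ≤ k →
  ∃ r D κ : ℕ, 0 < κ ∧ nd r D * κ + 3 ≤ k ∧ (nd r D : ℝ) + 3 ≤ (k : ℝ) ^ δ ∧
  ∀ S : ℕ, 0 < S →
    Real.logb 2 S < c * Real.logb 2 k ^ 2 / Real.logb 2 (Real.logb 2 k) →
    (nn r D : ℝ) * (S + 1) / 2 ^ (r + 1) + (S + 1) * (nd r D * (k : ℝ) ^ θ / κ) ^ (D + 1) +
      nd r D * (k : ℝ) ^ θ / κ ≤ 2 * (k : ℝ) ^ (-c)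

end Pool.Agent.W994.ST
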