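import Pool.Agent.W994.ST.Stm

/-!
# The combinatorial core: crossing a gadget while few nodes are held
-/

set_option autoImplicit false

namespace Pool.Agent.W994.ST

open Finset

variable {𝒱 : Type} {w : 𝒱 × Bool → 𝒱} {q : ℕ → Option (𝒱 × Bool)}

theorem held_of_touch {t : ℕ} {b : 𝒱} (h : touch q t b) : held w q t b :=
  ⟨t, le_rfl, h, fun _ h1 h2 => absurd h1 (not_le.2 h2)⟩

theorem ann_of_held {t : ℕ} {b : 𝒱} (h : held w q (t + 1) b) (h' : ¬ held w q t b) :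
    ann w q t b := by
  by_contra hc
  obtain ⟨p, hp, ht, ha⟩ := h
  refine h' ⟨p, by omega, ht, fun s h1 h2 => ?_⟩
  rcases Nat.lt_or_ge t s with h3 | h3
  · exact ha s h3 h2
  · have h4 : s = t := by omega
    rw [h4]; exact hc

theorem last_time (P : ℕ → Prop) {t1 e : ℕ} (h : t1 ≤ e) (h1 : P t1) :
    ∃ u, t1 ≤ u ∧ u ≤ e ∧ P u ∧ ∀ s, u < s → s ≤ e → ¬ P s := by
  induction e, h using Nat.le_induction with
  | base => exact ⟨t1, le_rfl, le_rfl, h1, fun s h2 h3 => absurd h2 (by omega)⟩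
  | succ e he ih =>
    by_cases hP : P (e + 1)
    · exact ⟨e + 1, by omega, le_rfl, hP, fun s h2 h3 => absurd h2 (by omega)⟩
    · obtain ⟨u, hu1, hu2, hu3, hu4⟩ := ih
      refine ⟨u, hu1, by omega, hu3, fun s h2 h3 => ?_⟩
      rcases Nat.lt_or_ge s (e + 1) with h | h
      · exact hu4 s h2 (by omega)
      · have h5 : s = e + 1 := by omega
        rw [h5]; exact hP

/-- Entering a set `B`. -/
theorem enter (B : 𝒱 → Prop) {t1 e : ℕ} (h : t1 ≤ e) (h1 : ∀ b, B b → ¬ held w q t1 b)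
    (h2 : ∃ b, B b ∧ held w q e b) :
    ∃ u, t1 ≤ u ∧ u < e ∧ (∀ b, B b → ¬ held w q u b) ∧
      (∀ s, u < s → s ≤ e → ∃ b, B b ∧ held w q s b) ∧ ∃ b, B b ∧ ann w q u b := by
  obtain ⟨u, hu1, hu2, hu3, hu4⟩ := last_time (fun t => ∀ b, B b → ¬ held w q t b) h h1
  have hne : u ≠ e := by
    rintro rfl
    obtain ⟨b, hb, hb'⟩ := h2
    exact hu3 b hb hb'
  have hc : ∀ s, u < s → s ≤ e → ∃ b, B b ∧ held w q s b := by
    intro s hs hs'
    have h5 := hu4 s hs hs'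
    push Not at h5
    exact h5
  refine ⟨u, hu1, by omega, hu3, hc, ?_⟩
  obtain ⟨b, hb, hb'⟩ := hc (u + 1) (by omega) (by omega)
  exact ⟨b, hb, ann_of_held hb' (hu3 b hb)⟩

/-- One world in which the gadget is embedded. -/
structure Env {r d : ℕ} (w : 𝒱 × Bool → 𝒱) (ι : Nd r d → 𝒱) (ε δ : 𝒱) (h : Hb r d) : Prop where
  inj : Function.Injective ι
  ans : ∀ u c, w (ι u, c) = tg ι ε δ (sc r d h u c)
  out : ∀ v u, (∀ u', v.1 ≠ ι u') → w v = ι u → u = entry r d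
  he : ∀ u, ι u ≠ ε
  hd : ∀ u, ι u ≠ δ

theorem Fam.env {r d : ℕ} {W : Hb r d → 𝒱 × Bool → 𝒱} {ι : Nd r d → 𝒱} {ε δ : 𝒱}
    (F : Fam W ι ε δ) (h : Hb r d) : Env (W h) ι ε δ h :=
  ⟨F.inj, F.ans h, F.out h, F.he, F.hd⟩

/-- Where the exit of a sub-gadget leads to. -/
def xt {r : ℕ} (d : ℕ) (ω : Fin (r + 1) → Bool) (i : Fin (r + 1)) (e c : Bool) :
    Nd r (d + 1) ⊕ Bool :=
  match nx ω i e c with
  | Sum.inl p => Sum.inl (p, none)
  | Sum.inr b => Sum.inr b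

section scl

variable {r d : ℕ} {h : Hb r (d + 1)}

theorem sc_pn (i : Fin (r + 1)) (e c : Bool) :
    sc r (d + 1) h (pn d i e) c = Sum.inl (sb i e c (entry r d)) := rfl

theorem sc_sb_inl {i : Fin (r + 1)} {e c : Bool} {u u' : Nd r d} {b : Bool}
    (h1 : sc r d (h.2 (i, e, c)) u b = Sum.inl u') :
    sc r (d + 1) h (sb i e c u) b = Sum.inl (sb i e c u') := by
  show (match sc r d (h.2 (i, e, c)) u b with
    | Sum.inl u' => Sum.inl ((i, e), some (c, u'))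
    | Sum.inr false => Sum.inr false
    | Sum.inr true =>
      match nx h.1 i e c with
      | Sum.inl p => Sum.inl (p, none)
      | Sum.inr b => Sum.inr b) = _
  rw [h1]; rfl

theorem sc_sb_false {i : Fin (r + 1)} {e c : Bool} {u : Nd r d} {b : Bool}
    (h1 : sc r d (h.2 (i, e, c)) u b = Sum.inr false) :
    sc r (d + 1) h (sb i e c u) b = Sum.inr false := by
  show (match sc r d (h.2 (i, e, c)) u b with
    | Sum.inl u' => Sum.inl ((i, e), some (c, u'))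
    | Sum.inr false => Sum.inr false
    | Sum.inr true =>
      match nx h.1 i e c with
      | Sum.inl p => Sum.inl (p, none)
      | Sum.inr b => Sum.inr b) = _
  rw [h1]; rfl

theorem sc_sb_true {i : Fin (r + 1)} {e c : Bool} {u : Nd r d} {b : Bool}
    (h1 : sc r d (h.2 (i, e, c)) u b = Sum.inr true) :
    sc r (d + 1) h (sb i e c u) b = xt d h.1 i e c := by
  show (match sc r d (h.2 (i, e, c)) u b with
    | Sum.inl u' => Sum.inl ((i, e), some (c, u'))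
    | Sum.inr false => Sum.inr false
    | Sum.inr true =>
      match nx h.1 i e c with
      | Sum.inl p => Sum.inl (p, none)
      | Sum.inr b => Sum.inr b) = _
  rw [h1]; rfl

theorem sb_inj {i i' : Fin (r + 1)} {e e' c c' : Bool} {u u' : Nd r d}
    (h1 : sb i e c u = sb i' e' c' u') : i = i' ∧ e = e' ∧ c = c' ∧ u = u' := by
  have h2 := congrArg Prod.fst h1
  have h3 := congrArg Prod.snd h1
  have h4 : (i, e) = (i', e') := h2
  have h5 : some (c, u) = some (c', u') := h3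
  rw [Option.some.injEq, Prod.mk.injEq] at h5
  rw [Prod.mk.injEq] at h4
  exact ⟨h4.1, h4.2, h5.1, h5.2⟩

theorem pn_ne_sb {i i' : Fin (r + 1)} {e e' c' : Bool} {u' : Nd r d} :
    pn d i e ≠ sb i' e' c' u' := by
  intro h1
  have h3 := congrArg Prod.snd h1
  exact absurd h3 (by simp [pn, sb])

theorem pn_inj {i i' : Fin (r + 1)} {e e' : Bool} (h1 : pn d i e = pn d i' e') :
    i = i' ∧ e = e' := by
  have h2 := congrArg Prod.fst h1
  have h4 : (i, e) = (i', e') := h2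
  rw [Prod.mk.injEq] at h4
  exact h4

/-- A node is a path node or a node of a sub-gadget. -/
theorem nd_cases (z : Nd r (d + 1)) :
    (∃ i e, z = pn d i e) ∨ ∃ i e c u, z = sb i e c u := by
  obtain ⟨⟨i, e⟩, o⟩ := z
  rcases o with _ | ⟨c, u⟩
  · exact Or.inl ⟨i, e, rfl⟩
  · exact Or.inr ⟨i, e, c, u, rfl⟩

theorem xt_cases (ω : Fin (r + 1) → Bool) (i : Fin (r + 1)) (e c : Bool) :
    (∃ i' e', xt d ω i e c = Sum.inl (pn d i' e') ∧ nx ω i e c = Sum.inl (i', e')) ∨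
      ∃ b, xt d ω i e c = Sum.inr b ∧ nx ω i e c = Sum.inr b := by
  unfold xt
  rcases h1 : nx ω i e c with ⟨i', e'⟩ | b
  · exact Or.inl ⟨i', e', rfl, rfl⟩
  · exact Or.inr ⟨b, rfl, rfl⟩

end scl

section sub

variable {r d : ℕ} {ι : Nd r (d + 1) → 𝒱} {ε δ : 𝒱} {h : Hb r (d + 1)}

/-- Who points into a sub-gadget. -/
theorem Env.out_sb (E : Env w ι ε δ h) {i : Fin (r + 1)} {e c : Bool} {v : 𝒱 × Bool} {u : Nd r d}
    (hv : ∀ u', v.1 ≠ ι (sb i e c u')) (hw : w v = ι (sb i e c u)) :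
    v.1 = ι (pn d i e) ∧ v.2 = c ∧ u = entry r d := by
  by_cases hr : ∃ z, v.1 = ι z
  · obtain ⟨z, hz⟩ := hr
    have hv' : v = (ι z, v.2) := Prod.ext hz rfl
    rw [hv', E.ans] at hw
    rcases nd_cases z with ⟨i', e', rfl⟩ | ⟨i', e', c', u', rfl⟩
    · rw [sc_pn] at hw
      obtain ⟨h1, h2, h3, h4⟩ := sb_inj (E.inj hw)
      exact ⟨by rw [hz, h1, h2], h3, h4.symm⟩
    · rcases hs : sc r d (h.2 (i', e', c')) u' v.2 with u'' | b
      · rw [sc_sb_inl hs] at hw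
        obtain ⟨h1, h2, h3, h4⟩ := sb_inj (E.inj hw)
        exact absurd (by rw [hz, h1, h2, h3]) (hv u')
      · rcases b with _ | _
        · rw [sc_sb_false hs] at hw
          exact absurd hw.symm (E.hd _)
        · rw [sc_sb_true hs] at hw
          rcases xt_cases (d := d) h.1 i' e' c' with ⟨i'', e'', h1, -⟩ | ⟨b, h1, -⟩
          · rw [h1] at hw
            exact absurd (E.inj hw) pn_ne_sb
          · rw [h1] at hw
            rcases b with _ | _
            · exact absurd hw.symm (E.hd _)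
            · exact absurd hw.symm (E.he _)
  · push Not at hr
    have h1 := E.out v _ hr hw
    exact absurd h1.symm pn_ne_sb

/-- Who points to a path node which is not the entry. -/
theorem Env.out_pn (E : Env w ι ε δ h) {i : Fin (r + 1)} {e : Bool} {v : 𝒱 × Bool}
    (hi : i.val ≠ 0) (hw : w v = ι (pn d i e)) :
    ∃ i' e' c' u', v.1 = ι (sb i' e' c' u') ∧ sc r d (h.2 (i', e', c')) u' v.2 = Sum.inr true ∧
      nx h.1 i' e' c' = Sum.inl (i, e) := by
  by_cases hr : ∃ z, v.1 = ι z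
  · obtain ⟨z, hz⟩ := hr
    have hv' : v = (ι z, v.2) := Prod.ext hz rfl
    rw [hv', E.ans] at hw
    rcases nd_cases z with ⟨i', e', rfl⟩ | ⟨i', e', c', u', rfl⟩
    · rw [sc_pn] at hw
      exact absurd (E.inj hw).symm pn_ne_sb
    · rcases hs : sc r d (h.2 (i', e', c')) u' v.2 with u'' | b
      · rw [sc_sb_inl hs] at hw
        exact absurd (E.inj hw).symm pn_ne_sb
      · rcases b with _ | _
        · rw [sc_sb_false hs] at hw
          exact absurd hw.symm (E.hd _)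
        · rw [sc_sb_true hs] at hw
          rcases xt_cases (d := d) h.1 i' e' c' with ⟨i'', e'', h1, h2⟩ | ⟨b, h1, -⟩
          · rw [h1] at hw
            obtain ⟨rfl, rfl⟩ := pn_inj (E.inj hw)
            exact ⟨i', e', c', u', hz, hs, h2⟩
          · rw [h1] at hw
            rcases b with _ | _
            · exact absurd hw.symm (E.hd _)
            · exact absurd hw.symm (E.he _)
  · push Not at hr
    have h1 := E.out v _ hr hw
    have h2 : pn d i e = pn d 0 false := h1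
    exact absurd (by rw [(pn_inj h2).1]; rfl) hi

theorem nx_inl {ω : Fin (r + 1) → Bool} {i i' : Fin (r + 1)} {e c : Bool}
    (h1 : nx ω i e c = Sum.inl (i', sd ω i')) : i'.val = i.val + 1 ∧ e = sd ω i ∧ c = ω i := by
  unfold nx at h1
  split_ifs at h1 with h2 h3
  · rw [Sum.inl.injEq, Prod.mk.injEq] at h1
    obtain ⟨rfl, h4⟩ := h1
    refine ⟨rfl, h3, ?_⟩
    rw [h4, sd, if_neg (by simp)]
    rfl
  · rw [Sum.inl.injEq, Prod.mk.injEq] at h1
    obtain ⟨rfl, h4⟩ := h1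
    rw [sd, if_neg (by simp)] at h4
    have h5 : ω ⟨i.val + 1 - 1, by omega⟩ = ω i := rfl
    rw [h5] at h4
    simp at h4

theorem nx_inr {ω : Fin (r + 1) → Bool} {i : Fin (r + 1)} {e c : Bool}
    (h1 : nx ω i e c = Sum.inr true) : i.val = r ∧ e = sd ω i ∧ c = ω i := by
  unfold nx at h1
  split_ifs at h1 with h2 h3
  · refine ⟨by omega, h3, ?_⟩
    rw [Sum.inr.injEq] at h1
    simpa using h1
  · rw [Sum.inr.injEq] at h1
    simp at h1

end sub

variable {r d : ℕ} {ι : Nd r (d + 1) → 𝒱} {ε δ : 𝒱} {h : Hb r (d + 1)}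

theorem claim1 (E : Env w ι ε δ h) {t1 t2 : ℕ} (h0 : ∀ u, ¬ held w q t1 (ι u))
    (hb : ∀ t, t1 ≤ t → t ≤ t2 → ∀ s : Finset (Nd r (d + 1)), (∀ u ∈ s, held w q t (ι u)) →
      s.card ≤ d + 1) {i : Fin (r + 1)} {e c : Bool}
    (hv : ¬ Viol w (fun u => ι (sb i e c u)) (h.2 (i, e, c)) q) {τ : ℕ} (h1 : t1 ≤ τ)
    (h2 : τ ≤ t2) (hx : exitAt (fun u => ι (sb i e c u)) (h.2 (i, e, c)) q τ) :
    ∃ u κ, t1 ≤ u ∧ u < κ ∧ κ ≤ τ ∧ touch q u (ι (pn d i e)) ∧
      (∀ s, u < s → s ≤ τ → ∃ v, held w q s (ι (sb i e c v))) ∧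
      (∀ z, held w q κ (ι z) → ∃ v, z = sb i e c v) := by
  obtain ⟨u0, c0, hq, -⟩ := id hx
  obtain ⟨u, hu1, hu2, hu3, hu4, b, ⟨v, rfl⟩, v', hv1, hv2⟩ :=
    enter (w := w) (q := q) (fun b => ∃ v, b = ι (sb i e c v)) h1
      (by rintro b ⟨v, rfl⟩; exact h0 _) ⟨_, ⟨u0, rfl⟩, held_of_touch ⟨c0, hq⟩⟩
  have hout : ∀ u', v'.1 ≠ ι (sb i e c u') := by
    intro u' hu'
    refine hu3 _ ⟨u', rfl⟩ (held_of_touch ⟨v'.2, ?_⟩)
    rw [hv1, ← hu']
  obtain ⟨hp1, -, -⟩ := E.out_sb hout hv2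
  have hviol : ∃ t, u ≤ t ∧ t ≤ τ ∧ ∃ s : Finset (Nd r d),
      (∀ v ∈ s, held w q t (ι (sb i e c v))) ∧ d < s.card := by
    by_contra hc
    push Not at hc
    exact hv ⟨u, τ, hu2.le, fun v => hu3 _ ⟨v, rfl⟩, fun t ht1 ht2 s hs => hc t ht1 ht2 s hs, hx⟩
  obtain ⟨κ, hk1, hk2, s, hs1, hs2⟩ := hviol
  have hne : κ ≠ u := by
    rintro rfl
    obtain ⟨v, hv⟩ := Finset.card_pos.1 (lt_of_le_of_lt (Nat.zero_le d) hs2)
    exact hu3 _ ⟨v, rfl⟩ (hs1 v hv)
  refine ⟨u, κ, hu1, by omega, hk2, ⟨v'.2, by rw [hv1, ← hp1]⟩, ?_, ?_⟩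
  · intro s' hs' hs''
    obtain ⟨b, ⟨v, rfl⟩, hb'⟩ := hu4 s' hs' hs''
    exact ⟨v, hb'⟩
  · intro z hz
    by_contra hc
    push Not at hc
    have hz' : z ∉ s.image (sb i e c) := by
      intro hm
      obtain ⟨v, -, hv⟩ := Finset.mem_image.1 hm
      exact hc v hv.symm
    have h3 := hb κ (by omega) (by omega) (insert z (s.image (sb i e c))) (by
      intro u' hu'
      rcases Finset.mem_insert.1 hu' with rfl | hu'
      · exact hz
      · obtain ⟨v, hv, rfl⟩ := Finset.mem_image.1 hu'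
        exact hs1 v hv)
    rw [Finset.card_insert_of_notMem hz', Finset.card_image_of_injective] at h3
    · omega
    · intro v v' hvv
      exact (sb_inj hvv).2.2.2

/-- Some node of the live path is held. -/
def Cov (w : 𝒱 × Bool → 𝒱) (ι : Nd r (d + 1) → 𝒱) (h : Hb r (d + 1))
    (q : ℕ → Option (𝒱 × Bool)) (s : ℕ) : Prop :=
  ∃ z, held w q s (ι z) ∧ ∃ j, z = pn d j (sd h.1 j) ∨ ∃ v, z = sb j (sd h.1 j) (h.1 j) v

theorem descend (E : Env w ι ε δ h) {t1 t2 : ℕ} (h12 : t1 ≤ t2) (h0 : ∀ u, ¬ held w q t1 (ι u))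
    (hb : ∀ t, t1 ≤ t → t ≤ t2 → ∀ s : Finset (Nd r (d + 1)), (∀ u ∈ s, held w q t (ι u)) →
      s.card ≤ d + 1)
    (hn : ∀ i e c, ¬ Viol w (fun u => ι (sb i e c u)) (h.2 (i, e, c)) q)
    (hx : exitAt ι h q t2) : ∀ (n : ℕ) (i : Fin (r + 1)), i.val + n = r →
    ∃ τ, t1 ≤ τ ∧ τ ≤ t2 ∧
      exitAt (fun u => ι (sb i (sd h.1 i) (h.1 i) u)) (h.2 (i, sd h.1 i, h.1 i)) q τ ∧
      (∀ s, τ < s → s ≤ t2 → Cov w ι h q s) ∧
      ∀ j, i < j → ∃ τ', τ ≤ τ' ∧ τ' ≤ t2 ∧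
        exitAt (fun u => ι (sb j (sd h.1 j) (h.1 j) u)) (h.2 (j, sd h.1 j, h.1 j)) q τ' := by
  intro n
  induction n with
  | zero =>
    intro i hi
    obtain ⟨z, c, hq, hs⟩ := hx
    rcases nd_cases z with ⟨i', e', rfl⟩ | ⟨i', e', c', u', rfl⟩
    · rw [sc_pn] at hs
      exact absurd hs (by simp)
    · rcases hs' : sc r d (h.2 (i', e', c')) u' c with u'' | b
      · rw [sc_sb_inl hs'] at hs
        exact absurd hs (by simp)
      · rcases b with _ | _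
        · rw [sc_sb_false hs'] at hs
          exact absurd hs (by simp)
        · rw [sc_sb_true hs'] at hs
          rcases xt_cases (d := d) h.1 i' e' c' with ⟨i'', e'', h1, h2⟩ | ⟨b, h1, h2⟩
          · rw [h1] at hs
            exact absurd hs (by simp)
          · rw [h1] at hs
            rw [hs] at h1
            rw [Sum.inr.injEq] at hs
            rw [hs] at h2
            obtain ⟨h3, h4, h5⟩ := nx_inr h2
            have h6 : i' = i := Fin.ext (by omega)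
            subst h6
            subst h4
            subst h5
            refine ⟨t2, h12, le_rfl, ⟨u', c, hq, hs'⟩, fun s h7 h8 => absurd h7 (by omega), ?_⟩
            intro j hj
            exact absurd (Fin.lt_def.1 hj) (by have := j.2; omega)
  | succ n ih =>
    intro i hi
    obtain ⟨τ, ht1, ht2, hex, hcov, hlat⟩ := ih ⟨i.val + 1, by omega⟩ (by simp; omega)
    set i' : Fin (r + 1) := ⟨i.val + 1, by omega⟩ with hi'
    obtain ⟨u, κ, hu1, hu2, hu3, hu4, hu5, -⟩ := claim1 E h0 hb (hn _ _ _) ht1 ht2 hex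
    obtain ⟨v, hv1, hv2, hv3, hv4, b, rfl, x', hx1, hx2⟩ :=
      enter (w := w) (q := q) (fun b => b = ι (pn d i' (sd h.1 i'))) hu1
        (by rintro b rfl; exact h0 _) ⟨_, rfl, held_of_touch hu4⟩
    obtain ⟨j, e', c', u', hj1, hj2, hj3⟩ := E.out_pn (by simp [hi']) hx2
    obtain ⟨h1, h2, h3⟩ := nx_inl hj3
    have h4 : j = i := Fin.ext (by simp [hi'] at h1; omega)
    subst h4
    subst h2
    subst h3
    refine ⟨v, hv1, by omega, ⟨u', x'.2, ?_, hj2⟩, ?_, ?_⟩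
    · show q v = some (ι (sb j (sd h.1 j) (h.1 j) u'), x'.2)
      rw [hx1, ← hj1]
    · intro s hs1 hs2
      rcases Nat.lt_or_ge u s with h5 | h5
      · rcases Nat.lt_or_ge τ s with h6 | h6
        · exact hcov s h6 hs2
        · obtain ⟨v', hv'⟩ := hu5 s h5 h6
          exact ⟨_, hv', i', Or.inr ⟨v', rfl⟩⟩
      · obtain ⟨b, rfl, hb'⟩ := hv4 s hs1 h5
        exact ⟨_, hb', i', Or.inl rfl⟩
    · intro j' hj'
      rcases Nat.lt_or_ge i'.val j'.val with h5 | h5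
      · obtain ⟨τ', h6, h7, h8⟩ := hlat j' (Fin.lt_def.2 h5)
        exact ⟨τ', by omega, h7, h8⟩
      · have h6 : j' = i' := Fin.ext (by
          have := Fin.lt_def.1 hj'
          simp [hi'] at h5 ⊢
          omega)
        subst h6
        exact ⟨τ, by omega, ht2, hex⟩

/-- The core: from some time on, the exits of the live sub-gadgets and no others are read. -/
theorem comb (E : Env w ι ε δ h) (hV : Viol w ι h q)
    (hn : ∀ i e c, ¬ Viol w (fun u => ι (sb i e c u)) (h.2 (i, e, c)) q) :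
    ∃ κ0 t2, κ0 ≤ t2 ∧
      (∀ τ, κ0 ≤ τ → τ ≤ t2 → ∀ i e c,
        exitAt (fun u => ι (sb i e c u)) (h.2 (i, e, c)) q τ → e = sd h.1 i ∧ c = h.1 i) ∧
      (∀ i, ∃ τ, κ0 ≤ τ ∧ τ ≤ t2 ∧
        exitAt (fun u => ι (sb i (sd h.1 i) (h.1 i) u)) (h.2 (i, sd h.1 i, h.1 i)) q τ) := by
  obtain ⟨t1, t2, h12, h0, hb, hx⟩ := hV
  obtain ⟨τ0, ht1, ht2, hex, hcov, hlat⟩ := descend E h12 h0 hb hn hx r 0 (by simp)
  obtain ⟨u0, κ0, hu1, hu2, hu3, -, hu5, hu6⟩ := claim1 E h0 hb (hn _ _ _) ht1 ht2 hex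
  have hcov' : ∀ s, u0 < s → s ≤ t2 → Cov w ι h q s := by
    intro s hs1 hs2
    rcases Nat.lt_or_ge τ0 s with h6 | h6
    · exact hcov s h6 hs2
    · obtain ⟨v', hv'⟩ := hu5 s hs1 h6
      exact ⟨_, hv', 0, Or.inr ⟨v', rfl⟩⟩
  refine ⟨κ0, t2, by omega, ?_, ?_⟩
  · intro τ h1 h2 i e c hexc
    obtain ⟨u', κ', hk1, hk2, hk3, -, hk5, hk6⟩ :=
      claim1 E h0 hb (hn _ _ _) (by omega : t1 ≤ τ) h2 hexc
    rcases Nat.lt_or_ge u' κ0 with h3 | h3
    · obtain ⟨v, hv⟩ := hk5 κ0 h3 h1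
      obtain ⟨v', hv'⟩ := hu6 _ hv
      obtain ⟨h4, h5, h6, -⟩ := sb_inj hv'
      subst h4
      exact ⟨h5, h6⟩
    · obtain ⟨z, hz, j, hj⟩ := hcov' κ' (by omega) (by omega)
      obtain ⟨v', hv'⟩ := hk6 z hz
      rcases hj with hj | ⟨v, hj⟩
      · exact absurd (hj.symm.trans hv') pn_ne_sb
      · obtain ⟨h4, h5, h6, -⟩ := sb_inj (hv'.symm.trans hj)
        subst h4
        exact ⟨h5, h6⟩
  · intro i
    rcases Nat.eq_zero_or_pos i.val with h3 | h3
    · have h4 : i = 0 := Fin.ext h3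
      subst h4
      exact ⟨τ0, hu3, ht2, hex⟩
    · obtain ⟨τ', h6, h7, h8⟩ := hlat i (Fin.lt_def.2 h3)
      exact ⟨τ', by omega, h7, h8⟩

/-- No violation at level `0`. -/
theorem not_viol_zero {ι : Nd r 0 → 𝒱} {h : Hb r 0} : ¬ Viol w ι h q := by
  rintro ⟨t1, t2, h12, h0, hb, u, c, hq, -⟩
  have h1 := hb t2 h12 le_rfl {u} (by
    intro v hv
    rw [Finset.mem_singleton.1 hv]
    exact held_of_touch ⟨c, hq⟩)
  simp at h1

end Pool.Agent.W994.ST
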