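import Pool.Agent.W994.ST.Count
import Pool.Agent.W515.ST.Names
import Pool.Agent.W565.ST.Inst

/-!
# The lower bound: assembly
-/

set_option autoImplicit false

namespace Pool.Agent.W994.ST

open Finset
open Pool.Agent.W997.TS (DBP)

section prog

variable {k : ℕ} (P : DBP (Fin k × Bool) k)

/-- The query function of the machine of a program. -/
def pqu : Option P.State → Option (Fin k × Bool) := Option.map P.query

/-- The transition function of the machine of a program. -/
def pnx : Option P.State → Fin k → Option P.State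
  | none, _ => none
  | some q, c => (P.next q c).getLeft?

theorem stp_none (x : Input k) : stp (pqu P) (pnx P) x none = none := rfl

theorem run_none (x : Input k) (p : ℕ) : run (pqu P) (pnx P) x none p = none := by
  induction p with
  | zero => rfl
  | succ p ih => rw [run_succ, ih, stp_none]

theorem run_path (x : Input k) : ∀ (l : List P.State) (q : P.State) (r : Bool),
    P.IsPath x q l r → ∀ p, run (pqu P) (pnx P) x (some q) p = (q :: l)[p]? := by
  intro l
  induction l with
  | nil =>
    intro q r h p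
    rcases p with _ | p
    · rfl
    · rw [Nat.add_comm p 1, run_add]
      have h1 : run (pqu P) (pnx P) x (some q) 1 = none := by
        show (P.next q (x (P.query q))).getLeft? = none
        have h2 : P.next q (x (P.query q)) = Sum.inr r := h
        rw [h2]; rfl
      rw [h1, run_none]
      simp
  | cons q' l ih =>
    intro q r h p
    rcases p with _ | p
    · rfl
    · rw [Nat.add_comm p 1, run_add]
      have h1 : run (pqu P) (pnx P) x (some q) 1 = some q' := by
        show (P.next q (x (P.query q))).getLeft? = some q'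
        have h2 : P.next q (x (P.query q)) = Sum.inl q' := h.1
        rw [h2]; rfl
      rw [h1, ih q' r h.2, Nat.add_comm 1 p, List.getElem?_cons_succ]

theorem trc_path {x : Input k} {l : List P.State} {q : P.State} {r : Bool}
    (h : P.IsPath x q l r) (p : ℕ) :
    trc (pqu P) (pnx P) x (some q) p = ((q :: l)[p]?).map P.query := by
  rw [trc, run_path P x l q r h]
  rfl

theorem path_det {x : Input k} : ∀ {l l' : List P.State} {q : P.State} {r r' : Bool},
    P.IsPath x q l r → P.IsPath x q l' r' → r = r' := by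
  intro l
  induction l with
  | nil =>
    intro l' q r r' h h'
    have h2 : P.next q (x (P.query q)) = Sum.inr r := h
    rcases l' with _ | ⟨q', l'⟩
    · have h3 : P.next q (x (P.query q)) = Sum.inr r' := h'
      rw [h2, Sum.inr.injEq] at h3
      exact h3
    · have h3 := h'.1
      rw [h2] at h3
      exact absurd h3 (by simp)
  | cons q' l ih =>
    intro l' q r r' h h'
    have h2 := h.1
    rcases l' with _ | ⟨q'', l'⟩
    · have h3 : P.next q (x (P.query q)) = Sum.inr r' := h'
      rw [h2] at h3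
      exact absurd h3 (by simp)
    · have h3 := h'.1
      rw [h2, Sum.inl.injEq] at h3
      subst h3
      exact ih h.2 h'.2

theorem path_congr {x x' : Input k} : ∀ {l : List P.State} {q : P.State} {r : Bool},
    P.IsPath x q l r → (∀ q' ∈ q :: l, x (P.query q') = x' (P.query q')) →
    P.IsPath x' q l r := by
  intro l
  induction l with
  | nil =>
    intro q r h he
    have h2 : P.next q (x (P.query q)) = Sum.inr r := h
    show P.next q (x' (P.query q)) = Sum.inr r
    rw [← he q (by simp)]
    exact h2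
  | cons q' l ih =>
    intro q r h he
    refine ⟨?_, ih h.2 fun q'' hq'' => he q'' (List.mem_cons_of_mem _ hq'')⟩
    rw [← he q (by simp)]
    exact h.1

/-- The rank of an unannounced first query is less than the number of variables read. -/
theorem rank_lt {x : Input k} {l : List P.State} {r : Bool} (h : P.IsPath x P.start l r)
    {t p : ℕ} {b : Fin k}
    (hF : FT x (trc (pqu P) (pnx P) x (run (pqu P) (pnx P) x (some P.start) t)) b p) :
    ((range p).image (trc (pqu P) (pnx P) x
      (run (pqu P) (pnx P) x (some P.start) t))).card <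
      ((P.start :: l).map P.query).toFinset.card := by
  classical
  set f := trc (pqu P) (pnx P) x (run (pqu P) (pnx P) x (some P.start) t) with hf
  have hft : ∀ s, f s = ((P.start :: l)[t + s]?).map P.query := by
    intro s
    rw [← trc_path P h (t + s), hf, trc, trc, run_add]
  obtain ⟨⟨c, hc⟩, hno⟩ := hF
  have hlen : t + p < (P.start :: l).length := by
    rw [hft] at hc
    by_contra hcon
    rw [List.getElem?_eq_none (by omega)] at hc
    exact absurd hc (by simp)
  have hsub : insert (f p) ((range p).image f) ⊆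
      (((P.start :: l).map P.query).toFinset).image some := by
    have hall : ∀ s, s ≤ p → f s ∈ (((P.start :: l).map P.query).toFinset).image some := by
      intro s hs
      have h1 : t + s < (P.start :: l).length := by omega
      rw [hft, List.getElem?_eq_getElem h1]
      refine Finset.mem_image.2 ⟨P.query ((P.start :: l)[t + s]), ?_, rfl⟩
      rw [List.mem_toFinset]
      exact List.mem_map.2 ⟨_, List.getElem_mem h1, rfl⟩
    intro y hy
    rcases Finset.mem_insert.1 hy with rfl | hy
    · exact hall p le_rfl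
    · obtain ⟨s, hs, rfl⟩ := Finset.mem_image.1 hy
      exact hall s (Finset.mem_range.1 hs).le
  have hnew : f p ∉ (range p).image f := by
    intro hm
    obtain ⟨s, hs, he⟩ := Finset.mem_image.1 hm
    exact (hno s (Finset.mem_range.1 hs)).1 ⟨c, he.trans hc⟩
  have h1 := Finset.card_le_card hsub
  have h2 : (insert (f p) ((range p).image f)).card = ((range p).image f).card + 1 :=
    Finset.card_insert_of_notMem hnew
  have h3 : ((((P.start :: l).map P.query).toFinset).image some).card ≤
      ((P.start :: l).map P.query).toFinset.card := Finset.card_image_le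
  omega

end prog

section held

variable {𝒱 St : Type} (qu : St → Option (𝒱 × Bool)) (nxt : St → 𝒱 → St)

theorem FT_of_held {w : 𝒱 × Bool → 𝒱} {σ0 : St} {t : ℕ} {b : 𝒱}
    (h : held w (trc qu nxt w σ0) t b) : ∃ p, FT w (trc qu nxt w (run qu nxt w σ0 t)) b p := by
  classical
  obtain ⟨p0, hp0, ht0, ha0⟩ := h
  have hs : ∀ p, trc qu nxt w (run qu nxt w σ0 t) p = trc qu nxt w σ0 (t + p) := by
    intro p
    rw [trc, trc, run_add]
  have hex : ∃ n, touch (trc qu nxt w (run qu nxt w σ0 t)) n b := by
    obtain ⟨c, hc⟩ := ht0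
    exact ⟨p0 - t, c, by rw [hs, Nat.add_sub_cancel' hp0]; exact hc⟩
  refine ⟨Nat.find hex, Nat.find_spec hex, fun s hs' => ⟨Nat.find_min hex hs', ?_⟩⟩
  have hle : Nat.find hex ≤ p0 - t := by
    refine Nat.find_min' hex ?_
    obtain ⟨c, hc⟩ := ht0
    exact ⟨c, by rw [hs, Nat.add_sub_cancel' hp0]; exact hc⟩
  rintro ⟨v, hv, hv'⟩
  rw [hs] at hv
  exact ha0 (t + s) (by omega) (by omega) ⟨v, hv, hv'⟩

end held

theorem card_image_inst {A B : Type} (i1 i2 : DecidableEq B) (s : Finset A) (f : A → B) :
    (@Finset.image _ _ i1 f s).card = (@Finset.image _ _ i2 f s).card := by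
  rw [Subsingleton.elim i1 i2]

section pairs

variable {k κ r D : ℕ} (nm : Nd r D × Fin κ → Fin k) (s t dd : Fin k)
  (P : DBP (Fin k × Bool) k)

/-- The names are bad from the state `σ` on: `m` unannounced first queries of rank `< T`. -/
def BadN (m T : ℕ) (σ : Option P.State) (h : Hb r D) (a : Nd r D → Fin κ) : Prop :=
  open Classical in
  ∃ z : Fin m → Nd r D, Function.Injective z ∧ ∀ j, ∃ p,
    FT (wld nm s t dd false h a) (trc (pqu P) (pnx P) (wld nm s t dd false h a) σ)
      (nm (z j, a (z j))) p ∧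
    ((range p).image (trc (pqu P) (pnx P) (wld nm s t dd false h a) σ)).card < T

/-- The program is right on the input with the parameters `z`, `h`, `a`. -/
def Right (z : Bool) (h : Hb r D) (a : Nd r D → Fin κ) : Prop :=
  open Classical in
  ∃ τ m, P.Run (wld nm s t dd z h a) τ m (decide (Reach (wld nm s t dd z h a) s t))

theorem trichotomy (hinj : Function.Injective nm) (hs : ∀ v, nm v ≠ s) (ht : ∀ v, nm v ≠ t)
    (hd : ∀ v, nm v ≠ dd) (hst : s ≠ t) (hsd : s ≠ dd) (htd : t ≠ dd) {T : ℕ} (h : Hb r D)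
    (a : Nd r D → Fin κ)
    (hT : ∀ τ m b, P.Run (wld nm s t dd false h a) τ m b → m ≤ T)
    (h1 : Right nm s t dd P true h a) (h2 : Right nm s t dd P false h a) :
    Viol (wld nm s t dd false h a) (fun u => nm (u, a u)) h
        (trc (pqu P) (pnx P) (wld nm s t dd false h a) (some P.start)) ∨
      (∃ σ, BadN nm s t dd P (D + 1) T σ h a) ∨ BadN nm s t dd P 1 T (some P.start) h a := by
  classical
  obtain ⟨-, hr1, hr0, hdiff, -, -⟩ :=
    Pool.Agent.W565.ST.Inst.main k κ r D nm s t dd hinj hs ht hd hst hsd htd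
  obtain ⟨τ1, m1, l1, hp1, -, -⟩ := h1
  obtain ⟨τ0, m0, hrun0⟩ := h2
  have hm0 := hT _ _ _ hrun0
  obtain ⟨l0, hp0, -, hm⟩ := hrun0
  rw [decide_eq_true (hr1 h a)] at hp1
  rw [decide_eq_false (hr0 h a)] at hp0
  -- the exit is read
  have hexit : ∃ t2, exitAt (fun u => nm (u, a u)) h
      (trc (pqu P) (pnx P) (wld nm s t dd false h a) (some P.start)) t2 := by
    by_contra hc
    push Not at hc
    have hsame : ∀ q' ∈ P.start :: l0, wld nm s t dd false h a (P.query q') =
        wld nm s t dd true h a (P.query q') := by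
      intro q' hq'
      refine (hdiff h a (P.query q') ?_).symm
      intro u c hv hsc
      obtain ⟨p, hp, hpe⟩ := List.mem_iff_getElem.1 hq'
      refine hc p ⟨u, c, ?_, hsc⟩
      rw [trc_path P hp0 p, List.getElem?_eq_getElem hp, hpe, Option.map_some, hv]
    exact absurd (path_det P (path_congr P hp0 hsame) hp1) (by simp)
  obtain ⟨t2, ht2⟩ := hexit
  have hrank : ∀ (t' p : ℕ) (b : Fin k),
      FT (wld nm s t dd false h a) (trc (pqu P) (pnx P) (wld nm s t dd false h a)
        (run (pqu P) (pnx P) (wld nm s t dd false h a) (some P.start) t')) b p →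
      ((range p).image (trc (pqu P) (pnx P) (wld nm s t dd false h a)
        (run (pqu P) (pnx P) (wld nm s t dd false h a) (some P.start) t'))).card < T := by
    intro t' p b hF
    have h3 := rank_lt P hp0 hF
    have h4 : ((P.start :: l0).map P.query).toFinset.card ≤ T := by
      refine le_trans (le_of_eq ?_) hm0
      rw [← hm]
    refine lt_of_lt_of_le (lt_of_le_of_lt (le_of_eq ?_) h3) h4
    congr!
  by_cases hA3 : BadN nm s t dd P 1 T (some P.start) h a
  · exact Or.inr (Or.inr hA3)
  by_cases hA2 : ∃ σ, BadN nm s t dd P (D + 1) T σ h a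
  · exact Or.inr (Or.inl hA2)
  refine Or.inl ⟨0, t2, Nat.zero_le _, ?_, ?_, ht2⟩
  · intro u hu
    obtain ⟨p, hp⟩ := FT_of_held _ _ hu
    refine hA3 ⟨fun _ => u, fun i j _ => Subsingleton.elim i j, fun _ => ⟨p, hp, ?_⟩⟩
    have h5 := hrank 0 p _ hp
    refine lt_of_le_of_lt (le_of_eq ?_) h5
    congr!
  · intro t' _ _ F hF
    by_contra hcon
    push Not at hcon
    refine hA2 ⟨run (pqu P) (pnx P) (wld nm s t dd false h a) (some P.start) t', ?_⟩
    obtain ⟨F', hF', hcF⟩ := Finset.exists_subset_card_eq (Nat.succ_le_of_lt hcon)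
    refine ⟨fun j => (F'.equivFinOfCardEq hcF).symm j, ?_, ?_⟩
    · intro i j hij
      exact (F'.equivFinOfCardEq hcF).symm.injective (Subtype.ext hij)
    · intro j
      obtain ⟨p, hp⟩ := FT_of_held _ _ (hF _ (hF' ((F'.equivFinOfCardEq hcF).symm j).2))
      refine ⟨p, hp, ?_⟩
      have h5 := hrank t' p _ hp
      refine lt_of_le_of_lt (le_of_eq ?_) h5
      congr!

open Classical in
theorem count_bad (hinj : Function.Injective nm) (hs : ∀ v, nm v ≠ s) (ht : ∀ v, nm v ≠ t)
    (hd : ∀ v, nm v ≠ dd) (hst : s ≠ t) (hsd : s ≠ dd) (htd : t ≠ dd) (m T : ℕ)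
    (σ : Option P.State) :
    (univ.filter fun y : Hb r D × (Nd r D → Fin κ) =>
      BadN nm s t dd P m T σ y.1 y.2).card * κ ^ m ≤
      (nd r D * T) ^ m * Fintype.card (Hb r D × (Nd r D → Fin κ)) := by
  obtain ⟨-, -, -, -, -, hX⟩ :=
    Pool.Agent.W565.ST.Inst.main k κ r D nm s t dd hinj hs ht hd hst hsd htd
  rw [pair_count, Finset.sum_mul]
  calc ∑ h : Hb r D, (univ.filter fun a : Nd r D → Fin κ =>
        BadN nm s t dd P m T σ h a).card * κ ^ m
      ≤ ∑ _h : Hb r D, (nd r D * T) ^ m * κ ^ nd r D := by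
        refine Finset.sum_le_sum fun h _ => ?_
        have h1 := Pool.Agent.W515.ST.main (Fin k) (Option P.State) (Nd r D) κ (pqu P) (pnx P)
          nm hinj (fun a => wld nm s t dd false h a) (fun a a' v => hX false h a a' v) σ m T
        rw [Pool.Agent.W565.ST.Inst.card_Nd] at h1
        refine le_trans (Nat.mul_le_mul_right _ (Finset.card_le_card fun a ha =>
          (@Finset.mem_filter _ _ (_) _ _).2 ⟨@Finset.mem_univ _ (_) _, ?_⟩)) h1
        obtain ⟨z, hz, hj⟩ := ((@Finset.mem_filter _ _ (_) _ _).1 ha).2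
        refine ⟨z, hz, fun j => ?_⟩
        obtain ⟨p, hp1, hp2⟩ := hj j
        exact ⟨p, hp1, lt_of_le_of_lt (card_image_inst _ _ _ _).le hp2⟩
    _ = _ := by
        rw [Finset.sum_const, Finset.card_univ, smul_eq_mul, Fintype.card_prod, Fintype.card_fun,
          Fintype.card_fin, Pool.Agent.W565.ST.Inst.card_Nd]
        ring

open Classical in
theorem count_viol' (hinj : Function.Injective nm) (hs : ∀ v, nm v ≠ s) (ht : ∀ v, nm v ≠ t)
    (hd : ∀ v, nm v ≠ dd) (hst : s ≠ t) (hsd : s ≠ dd) (htd : t ≠ dd) :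
    (univ.filter fun y : Hb r D × (Nd r D → Fin κ) =>
      Viol (wld nm s t dd false y.1 y.2) (fun u => nm (u, y.2 u)) y.1
        (trc (pqu P) (pnx P) (wld nm s t dd false y.1 y.2) (some P.start))).card *
        2 ^ (r + 1) ≤
      nn r D * (P.size + 1) * Fintype.card (Hb r D × (Nd r D → Fin κ)) := by
  obtain ⟨-, -, -, -, hFam, -⟩ :=
    Pool.Agent.W565.ST.Inst.main k κ r D nm s t dd hinj hs ht hd hst hsd htd
  rw [pair_count', Finset.sum_mul]
  calc ∑ a : Nd r D → Fin κ, (univ.filter fun h : Hb r D =>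
        Viol (wld nm s t dd false h a) (fun u => nm (u, a u)) h
        (trc (pqu P) (pnx P) (wld nm s t dd false h a) (some P.start))).card * 2 ^ (r + 1)
      ≤ ∑ _a : Nd r D → Fin κ, nn r D * (P.size + 1) * Fintype.card (Hb r D) := by
        refine Finset.sum_le_sum fun a _ => ?_
        have h1 := count_viol (pqu P) (pnx P) D _ _ _ _ (hFam false a) (some P.start)
        rw [Fintype.card_option] at h1
        exact h1
    _ = _ := by
        rw [Finset.sum_const, Finset.card_univ, smul_eq_mul, Fintype.card_prod]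
        ring

open Classical in
/-- The number of pairs on which the program is right for both values of `z`. -/
theorem count_both (hinj : Function.Injective nm) (hs : ∀ v, nm v ≠ s) (ht : ∀ v, nm v ≠ t)
    (hd : ∀ v, nm v ≠ dd) (hst : s ≠ t) (hsd : s ≠ dd) (htd : t ≠ dd) {T : ℕ} (hκ : 0 < κ)
    (hT : ∀ h a τ m b, P.Run (wld nm s t dd false h a) τ m b → m ≤ T) :
    ((univ.filter fun y : Hb r D × (Nd r D → Fin κ) =>
      Right nm s t dd P true y.1 y.2 ∧ Right nm s t dd P false y.1 y.2).card : ℝ) ≤
      ((nn r D : ℝ) * (P.size + 1) / 2 ^ (r + 1) +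
        (P.size + 1) * (nd r D * (T : ℝ) / κ) ^ (D + 1) + nd r D * (T : ℝ) / κ) *
        Fintype.card (Hb r D × (Nd r D → Fin κ)) := by
  set N2 := Fintype.card (Hb r D × (Nd r D → Fin κ)) with hN2
  set V := (univ.filter fun y : Hb r D × (Nd r D → Fin κ) =>
      Viol (wld nm s t dd false y.1 y.2) (fun u => nm (u, y.2 u)) y.1
        (trc (pqu P) (pnx P) (wld nm s t dd false y.1 y.2) (some P.start))) with hV
  set A2 := fun σ : Option P.State => (univ.filter fun y : Hb r D × (Nd r D → Fin κ) =>
      BadN nm s t dd P (D + 1) T σ y.1 y.2) with hA2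
  set A3 := (univ.filter fun y : Hb r D × (Nd r D → Fin κ) =>
      BadN nm s t dd P 1 T (some P.start) y.1 y.2) with hA3
  have hcov : (univ.filter fun y : Hb r D × (Nd r D → Fin κ) =>
      Right nm s t dd P true y.1 y.2 ∧ Right nm s t dd P false y.1 y.2) ⊆
      (V ∪ univ.biUnion A2) ∪ A3 := by
    intro y hy
    rw [Finset.mem_filter] at hy
    rw [Finset.mem_union, Finset.mem_union, Finset.mem_biUnion]
    rcases trichotomy nm s t dd P hinj hs ht hd hst hsd htd y.1 y.2
      (fun τ m b => hT y.1 y.2 τ m b) hy.2.1 hy.2.2 with h | ⟨σ, h⟩ | h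
    · exact Or.inl (Or.inl (Finset.mem_filter.2 ⟨mem_univ _, h⟩))
    · exact Or.inl (Or.inr ⟨σ, mem_univ _, Finset.mem_filter.2 ⟨mem_univ _, h⟩⟩)
    · exact Or.inr (Finset.mem_filter.2 ⟨mem_univ _, h⟩)
  have h1 : ((univ.filter fun y : Hb r D × (Nd r D → Fin κ) =>
      Right nm s t dd P true y.1 y.2 ∧ Right nm s t dd P false y.1 y.2).card : ℝ) ≤
      V.card + (∑ σ, ((A2 σ).card : ℝ)) + A3.card := by
    have h2 := (Finset.card_le_card hcov).trans ((Finset.card_union_le _ _).trans
      (Nat.add_le_add_right ((Finset.card_union_le _ _).trans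
        (Nat.add_le_add_left Finset.card_biUnion_le _)) _))
    exact_mod_cast h2
  have hκ' : (0 : ℝ) < κ := by exact_mod_cast hκ
  have hVb : (V.card : ℝ) ≤ (nn r D : ℝ) * (P.size + 1) / 2 ^ (r + 1) * N2 := by
    have h2 : ((V.card * 2 ^ (r + 1) : ℕ) : ℝ) ≤ ((nn r D * (P.size + 1) * N2 : ℕ) : ℝ) :=
      Nat.cast_le.2 (count_viol' nm s t dd P hinj hs ht hd hst hsd htd)
    push_cast at h2
    have h3 : (0 : ℝ) < 2 ^ (r + 1) := by positivity
    rw [div_mul_eq_mul_div, le_div_iff₀ h3]
    exact h2
  have hA2b : ∀ σ, ((A2 σ).card : ℝ) ≤ (nd r D * (T : ℝ) / κ) ^ (D + 1) * N2 := by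
    intro σ
    have h2 : (((A2 σ).card * κ ^ (D + 1) : ℕ) : ℝ) ≤ (((nd r D * T) ^ (D + 1) * N2 : ℕ) : ℝ) :=
      Nat.cast_le.2 (count_bad nm s t dd P hinj hs ht hd hst hsd htd (D + 1) T σ)
    push_cast at h2
    rw [div_pow, div_mul_eq_mul_div, le_div_iff₀ (pow_pos hκ' _)]
    exact h2
  have hA3b : (A3.card : ℝ) ≤ nd r D * (T : ℝ) / κ * N2 := by
    have h2 : ((A3.card * κ ^ 1 : ℕ) : ℝ) ≤ (((nd r D * T) ^ 1 * N2 : ℕ) : ℝ) :=
      Nat.cast_le.2 (count_bad nm s t dd P hinj hs ht hd hst hsd htd 1 T (some P.start))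
    push_cast at h2
    rw [pow_one, pow_one] at h2
    rw [div_mul_eq_mul_div, le_div_iff₀ hκ']
    exact h2
  have hsum : ∑ σ, ((A2 σ).card : ℝ) ≤
      (P.size + 1) * (nd r D * (T : ℝ) / κ) ^ (D + 1) * N2 := by
    refine (Finset.sum_le_sum fun σ _ => hA2b σ).trans ?_
    rw [Finset.sum_const, Finset.card_univ, Fintype.card_option, nsmul_eq_mul]
    push_cast
    rw [← mul_assoc]
    exact le_rfl
  calc _ ≤ _ := h1
    _ ≤ _ := add_le_add (add_le_add hVb hsum) hA3b
    _ = _ := by ring

open Classical in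
/-- The number of inputs on which the program is right. -/
theorem count_right : (univ.filter fun y : Bool × Hb r D × (Nd r D → Fin κ) =>
      Right nm s t dd P y.1 y.2.1 y.2.2).card ≤
    Fintype.card (Hb r D × (Nd r D → Fin κ)) +
      (univ.filter fun y : Hb r D × (Nd r D → Fin κ) =>
        Right nm s t dd P true y.1 y.2 ∧ Right nm s t dd P false y.1 y.2).card := by
  rw [pair_count, Fintype.sum_bool]
  rw [← Finset.card_union_add_card_inter, ← Finset.filter_and]
  refine Nat.add_le_add ?_ (le_of_eq rfl)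
  exact (Finset.card_le_univ _)

end pairs

end Pool.Agent.W994.ST
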